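import Pool.Agent.Helper25_CN2.Stmts
import Pool.Agent.Helper58_CON.AMin

/-! Squad CN2, module A_MIN2: a minimal lattice for n ≥ 10 -/

set_option autoImplicit false

noncomputable section

namespace Pool.Agent.CN2.H11

open Pool.Agent.H25Cong Pool.Agent.CON Pool.Agent.CN2

theorem a_min2 (hSub : A_SUB) (hCov : A_COV) : A_MIN2 := by
  rintro n Γ Λ hn ⟨L0, hL0, hi0, hc0⟩ hΓ
  obtain ⟨vol, hpos, hsq, hidx, hscale⟩ := hCov n
  classical
  have hex : ∃ k : ℕ, ∃ L, EvenLat L ∧ Inv Γ L ∧ Csc Λ L ∧ vol L ^ 2 = k := by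
    obtain ⟨k, hk⟩ := hsq L0 hL0
    exact ⟨k, L0, hL0, hi0, hc0, hk⟩
  obtain ⟨L, hL, hi, hc, hk⟩ := Nat.find_spec hex
  have hmin : ∀ L', EvenLat L' → Inv Γ L' → Csc Λ L' → vol L ^ 2 ≤ vol L' ^ 2 := by
    intro L' h1 h2 h3
    obtain ⟨k', hk'⟩ := hsq L' h1
    rw [hk, hk']
    exact_mod_cast Nat.find_min' hex ⟨L', h1, h2, h3, hk'⟩
  refine ⟨L, hL, hi, hc, ?_, ?_, ?_⟩
  · intro p hp hp2
    by_contra hle
    push Not at hle
    have hodd : p % 2 = 1 := hp.eq_two_or_odd.resolve_left hp2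
    have hstep := H58.step hSub hpos hidx hscale (Γ := Γ) (R := Rad L p) hL hc hmin p
      hp.pos (H58.rad_le L p) (fun x hx => H58.p_rad hL p hx)
      (fun x hx y hy => hx.2 y hy.1)
      (fun x hx => by
        obtain ⟨k, hk⟩ := hx.2 x hx.1
        obtain ⟨m, hm⟩ := hL.even x hx.1
        have h1 : (p : ℤ) * k = 2 * m := by
          have : ((p : ℤ) : ℝ) * k = 2 * m := by
            push_cast
            rw [← hk, hm]
          exact_mod_cast this
        have h2 : (2 : ℤ) ∣ k := by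
          have h3 : (2 : ℤ) ∣ (p : ℤ) * k := ⟨m, h1⟩
          rcases Int.prime_two.dvd_or_dvd h3 with h4 | h4
          · exfalso
            have : (2 : ℕ) ∣ p := by exact_mod_cast h4
            omega
          · exact h4
        obtain ⟨j, hj⟩ := h2
        refine ⟨j, ?_⟩
        rw [hk, hj]
        push_cast
        ring)
      (H58.inv_rad hi hΓ p)
    have h1 := Nat.pow_le_pow_left hle 2
    have h3 : p ^ 11 ≤ p ^ (n + 1) := Nat.pow_le_pow_right hp.pos (by omega)
    have h4 : p ^ 11 ≤ (p ^ 5) ^ 2 := le_trans h3 (le_trans hstep h1)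
    rw [← pow_mul] at h4
    have h4' : p ^ 11 ≤ p ^ 10 := h4
    have h5 : p ^ 10 < p ^ 11 := Nat.pow_lt_pow_right hp.one_lt (by norm_num)
    omega
  · by_contra hle
    push Not at hle
    have hRL : H58.R4 (L := L) ≤ L := fun x hx => hx.1.1
    have hRR : H58.R4 (L := L) ≤ Rad L 2 := fun x hx => hx.1
    have hstep := H58.step hSub hpos hidx hscale (Γ := Γ) (R := H58.R4 (L := L)) hL hc hmin 2
      (by norm_num) hRL
      (fun x hx => ⟨H58.p_rad hL 2 hx, by
        obtain ⟨k, hk⟩ := hL.int x hx x hx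
        refine ⟨k, ?_⟩
        rw [B_smul_left, B_smul_right, hk]
        push_cast; ring⟩)
      (fun x hx y hy => hx.1.2 y hy.1.1)
      (fun x hx => by
        obtain ⟨k, hk⟩ := hx.2
        exact ⟨k, by rw [hk]; norm_num⟩)
      (fun g hg x hx => ⟨H58.inv_rad hi hΓ 2 g hg x hx.1, by
        rw [hΓ g hg x x]; exact hx.2⟩)
    have hmul := AddSubgroup.relIndex_mul_relIndex (H58.R4 (L := L)).toAddSubgroup
      (Rad L 2).toAddSubgroup L.toAddSubgroup hRR (H58.rad_le L 2)
    have hle2 := H58.relIndex_R4 hL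
    rw [← hmul] at hstep
    have h1 : (H58.R4 (L := L)).toAddSubgroup.relIndex (Rad L 2).toAddSubgroup *
        (Rad L 2).toAddSubgroup.relIndex L.toAddSubgroup ≤ 2 * 2 ^ 4 := Nat.mul_le_mul hle2 hle
    have h3 : (2 : ℕ) ^ 11 ≤ 2 ^ (n + 1) := Nat.pow_le_pow_right (by norm_num) (by omega)
    have h4 := Nat.pow_le_pow_left h1 2
    have : (2 : ℕ) ^ 11 ≤ (2 * 2 ^ 4) ^ 2 := le_trans h3 (le_trans hstep h4)
    norm_num at this
  · intro L' hL' hi' hLL
    have hv := hidx L' L hL'.lat hL.lat hLL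
    set k : ℕ := L.toAddSubgroup.relIndex L'.toAddSubgroup with hkdef
    have hvL := hpos L hL.lat
    have hvL' := hpos L' hL'.lat
    have hk0 : k ≠ 0 := by
      intro h0
      rw [h0] at hv
      simp only [Nat.cast_zero, zero_mul] at hv
      linarith
    have hkx : ∀ x ∈ L', (k : ℝ) • x ∈ L := by
      intro x hx
      have h1 := AddSubgroup.nsmul_index_mem (H := L.toAddSubgroup.addSubgroupOf L'.toAddSubgroup)
        (⟨x, hx⟩ : L'.toAddSubgroup)
      have h2 : k • x ∈ L := h1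
      rwa [← Nat.cast_smul_eq_nsmul ℝ] at h2
    have hc' : Csc Λ L' := by
      obtain ⟨t, D, ht, hD, h1, h2⟩ := hc
      refine ⟨t, k * D, ht, Nat.mul_pos (Nat.pos_of_ne_zero hk0) hD, fun x hx => ?_,
        fun x hx => ?_⟩
      · have h3 := H58.zsmul_mem L k (h1 x hx)
        rw [smul_smul] at h3
        have e : (((k * D : ℕ) : ℝ) * t) = (k : ℝ) * ((D : ℝ) * t) := by push_cast; ring
        rw [e]
        exact hLL h3
      · obtain ⟨y, hy, hxy⟩ := h2 _ (hkx x hx)
        refine ⟨y, hy, ?_⟩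
        rw [← hxy, smul_smul]
        congr 1
        push_cast
        ring
    have hm := hmin L' hL' hi' hc'
    rw [hv] at hm
    have hk1 : k ≤ 1 := by
      by_contra hk2
      push Not at hk2
      have h2 : (2 : ℝ) ≤ k := by exact_mod_cast hk2
      have h3 : (4 : ℝ) ≤ (k : ℝ) ^ 2 := by nlinarith
      have h4 : ((k : ℝ) * vol L') ^ 2 = (k : ℝ) ^ 2 * vol L' ^ 2 := by ring
      rw [h4] at hm
      have h5 : 0 < vol L' ^ 2 := pow_pos hvL' 2
      nlinarith
    have hk1' : k = 1 := by omega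
    have hle : L'.toAddSubgroup ≤ L.toAddSubgroup := AddSubgroup.relIndex_eq_one.mp hk1'
    exact le_antisymm hle hLL

end Pool.Agent.CN2.H11

end
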