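import Pool.Agent.Helper25_CN2.Stmts
import Pool.Agent.Helper25_CON.PDLem

/-!
Squad CN2, module X_CMP: the case of equality.
-/

namespace Pool.Agent.CN2.H11

open Pool.Agent.H25Cong Pool.Agent.CON Pool.Agent.CN2

/-- the vector attached to the component `i` -/
def xv {k : ℕ} {M : Type} [AddCommGroup M] (l : List (Tch k M)) (i : Fin k) : M :=
  ((l.filter fun a => decide (a.1 = i)).map fun a => a.2.1).sum

theorem sum_xv {k : ℕ} {M : Type} [AddCommGroup M] (l : List (Tch k M)) :
    ∑ i, xv l i = (l.map fun a => a.2.1).sum := by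
  induction l with
  | nil => simp [xv]
  | cons a l ih =>
    have : ∀ i, xv (a :: l) i = (if a.1 = i then a.2.1 else 0) + xv l i := by
      intro i
      rw [xv, List.filter_cons]
      by_cases h : a.1 = i
      · simp [h, xv]
      · simp [h, xv]
    rw [Finset.sum_congr rfl fun i _ => this i, Finset.sum_add_distrib, ih]
    simp

theorem xv_notMem {k : ℕ} {M : Type} [AddCommGroup M] (l : List (Tch k M)) (i : Fin k)
    (hi : i ∉ l.map fun a => a.1) : xv l i = 0 := by
  have : l.filter (fun a => decide (a.1 = i)) = [] := by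
    rw [List.filter_eq_nil_iff]
    intro a ha h
    exact hi (List.mem_map.2 ⟨a, ha, by simpa using h⟩)
  rw [xv, this]
  rfl

theorem xv_mem {k : ℕ} {M : Type} [AddCommGroup M] (l : List (Tch k M))
    (hl : (l.map fun a => a.1).Nodup) (a : Tch k M) (ha : a ∈ l) : xv l a.1 = a.2.1 := by
  induction l with
  | nil => exact absurd ha List.not_mem_nil
  | cons c l ih =>
    rw [List.map_cons, List.nodup_cons] at hl
    rcases List.mem_cons.1 ha with h | h
    · subst h
      rw [xv, List.filter_cons, if_pos (by simp), List.map_cons, List.sum_cons]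
      have := xv_notMem l a.1 hl.1
      rw [xv] at this
      rw [this, add_zero]
    · have hne : ¬ c.1 = a.1 := fun h1 => hl.1 (by
        rw [h1]
        exact List.mem_map.2 ⟨a, h, rfl⟩)
      rw [xv, List.filter_cons, if_neg (by simpa using hne)]
      exact ih hl.2 h

/-- X_CMP -/
theorem x_CMP (hD : X_DEC) : X_CMP := by
  classical
  intro M _ b k C s τ l t ρ hb hC hl hJ h4 hN
  have hx : ∀ i, xv l i ∈ AddSubgroup.closure (C i) := by
    intro i
    by_cases hi : i ∈ l.map fun a => a.1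
    · obtain ⟨a, ha, rfl⟩ := List.mem_map.1 hi
      rw [xv_mem l hl a ha]
      exact (hJ a ha).1
    · rw [xv_notMem l i hi]
      exact zero_mem _
  rw [← sum_xv] at hN
  obtain ⟨T, ht, hs, hT⟩ := hD M b k C s τ (xv l) t ρ hb hC hx hN
  have hρ : 0 < ρ := hN.2.1
  have hTa : ∀ a ∈ l, AD b (AddSubgroup.closure (C a.1)) a.2.1 (T a.1) ρ := by
    intro a ha
    have := hT a.1
    rwa [xv_mem l hl a ha] at this
  have hge : ∀ a ∈ l, a.2.2.1 * ρ ≤ b (T a.1) (T a.1) := fun a ha =>
    ((hJ a ha).2 (T a.1) ρ (hTa a ha)).1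
  set L : Finset (Fin k) := (l.map fun a => a.1).toFinset with hLd
  have hsplit : ∑ i, b (T i) (T i) = ∑ i ∈ L, b (T i) (T i) + ∑ i ∈ Lᶜ, b (T i) (T i) :=
    (Finset.sum_add_sum_compl L _).symm
  have hLsum : ∑ i ∈ L, b (T i) (T i) = (l.map fun a => b (T a.1) (T a.1)).sum := by
    rw [hLd, List.sum_toFinset _ hl, List.map_map]
    rfl
  have hjsum : (l.map fun a => a.2.2.1 * ρ).sum = (l.map fun a => a.2.2.1).sum * ρ := by
    rw [List.sum_map_mul_right]
  have hle1 : (l.map fun a => a.2.2.1 * ρ).sum ≤ (l.map fun a => b (T a.1) (T a.1)).sum :=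
    List.sum_le_sum hge
  have hle2 : 0 ≤ ∑ i ∈ Lᶜ, b (T i) (T i) := Finset.sum_nonneg fun i _ => hb.nonneg (T i)
  have hle3 : 4 * ρ ≤ (l.map fun a => a.2.2.1).sum * ρ := by
    exact mul_le_mul_of_nonneg_right h4 hρ.le
  have hj4 : (l.map fun a => a.2.2.1).sum = 4 := by
    have h1 : (l.map fun a => a.2.2.1).sum * ρ ≤ 4 * ρ := by
      rw [hs, hsplit, hLsum, ← hjsum]
      linarith
    exact le_antisymm (le_of_mul_le_mul_right h1 hρ) h4
  have hrest : ∑ i ∈ Lᶜ, b (T i) (T i) = 0 := by
    refine le_antisymm ?_ hle2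
    rw [hj4] at hjsum
    have := hs
    rw [hsplit, hLsum] at this
    linarith
  have heqsum : (l.map fun a => a.2.2.1 * ρ).sum = (l.map fun a => b (T a.1) (T a.1)).sum := by
    refine le_antisymm hle1 ?_
    rw [hjsum, hj4, hs, hsplit, hLsum, hrest, add_zero]
  have heq : ∀ a ∈ l, a.2.2.1 * ρ = b (T a.1) (T a.1) := by
    have gen : ∀ (l : List (Tch k M)), (∀ a ∈ l, a.2.2.1 * ρ ≤ b (T a.1) (T a.1)) →
        (l.map fun a => a.2.2.1 * ρ).sum = (l.map fun a => b (T a.1) (T a.1)).sum →
        ∀ a ∈ l, a.2.2.1 * ρ = b (T a.1) (T a.1) := by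
      intro l
      induction l with
      | nil => intro _ _ a ha; exact absurd ha List.not_mem_nil
      | cons c l ih =>
        intro h1 h2 a ha
        rw [List.map_cons, List.map_cons, List.sum_cons, List.sum_cons] at h2
        have h3 := h1 c List.mem_cons_self
        have h4' : (l.map fun a => a.2.2.1 * ρ).sum ≤ (l.map fun a => b (T a.1) (T a.1)).sum :=
          List.sum_le_sum fun a ha => h1 a (List.mem_cons_of_mem _ ha)
        rcases List.mem_cons.1 ha with h | h
        · rw [h]; linarith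
        · exact ih (fun a ha => h1 a (List.mem_cons_of_mem _ ha)) (by linarith) a h
    exact gen l hge heqsum
  refine ⟨hj4, T, ht, ?_, ?_, ?_⟩
  · intro i
    obtain ⟨⟨z, hz, hz2⟩, -⟩ := hT i
    rw [hz2]
    exact add_mem (hx i) (zsmul_mem hz _)
  · intro i hi
    refine hb.eq_zero ?_
    have hmem : i ∈ Lᶜ := by
      rw [Finset.mem_compl, hLd, List.mem_toFinset]
      exact hi
    exact ((Finset.sum_eq_zero_iff_of_nonneg fun i _ => hb.nonneg (T i)).1 hrest i hmem).le
  · intro a ha
    exact ⟨hTa a ha, (heq a ha).symm, ((hJ a ha).2 (T a.1) ρ (hTa a ha)).2 (heq a ha).symm⟩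

end Pool.Agent.CN2.H11
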